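import Pool.Agent.Helper46.C2.St

set_option autoImplicit false

namespace Pool.Agent.Helper5.C2

open Pool.Agent.Helper46.C2 Pool.Agent.Helper43.GD Polynomial

/-- cardinality of polynomials of bounded degree -/
lemma card_deg (n : ℕ) : Nat.card (Polynomial.degreeLT (ZMod 2) n) = 2 ^ n := by
  rw [Nat.card_congr (Polynomial.degreeLTEquiv (ZMod 2) n).toEquiv]
  simp [Nat.card_eq_fintype_card, ZMod.card]

/-- fibres of an additive map are not larger than the kernel -/
lemma fib_le {A B : Type} [AddCommGroup A] [AddCommGroup B] [Finite A] (ψ : A →+ B) (P : A → Prop)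
    (hP : ∀ a b, P a → P b → ψ (a - b) = 0) :
    Nat.card {a : A // P a} ≤ Nat.card ψ.ker := by
  by_cases hne : ∃ a, P a
  · obtain ⟨a0, h0⟩ := hne
    let F : {a : A // P a} → ψ.ker := fun a => ⟨a.1 - a0, by
      rw [AddMonoidHom.mem_ker]; exact hP _ _ a.2 h0⟩
    apply Nat.card_le_card_of_injective F
    intro a b hab
    have : a.1 - a0 = b.1 - a0 := congrArg Subtype.val hab
    exact Subtype.ext (sub_left_injective this)
  · have : IsEmpty {a : A // P a} := ⟨fun a => hne ⟨a.1, a.2⟩⟩
    simp

theorem hFIB (h1 : StLF) : StFIB := by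
  intro k L _ x hR ev hev I f hI hcard n s
  haveI : Finite L := h1 k L x hR
  haveI := hI
  letI : Field (L ⧸ I) := Ideal.Quotient.field I
  haveI : Finite (L ⧸ I) := Quotient.finite _
  let φ : (ZMod 2)[X] →+* (L ⧸ I) := (Ideal.Quotient.mk I).comp ev
  have hφs : Function.Surjective φ := by
    have h2 : Function.Surjective ev := by
      have := hR.gn ev.toAddMonoidHom.range ?_ ?_
      · intro y
        obtain ⟨z, hz⟩ := this y
        exact ⟨z, hz⟩
      · exact ⟨1, map_one ev⟩
      · rintro y ⟨z, rfl⟩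
        exact ⟨X * z, by
          show ev (X * z) = x * ev z
          rw [map_mul, hev]⟩
    exact Ideal.Quotient.mk_surjective.comp h2
  letI : Algebra (ZMod 2) (L ⧸ I) := (φ.comp C).toAlgebra
  have haev : ∀ g : (ZMod 2)[X], aeval (φ X) g = φ g := by
    intro g
    have : (aeval (φ X) : (ZMod 2)[X] →ₐ[ZMod 2] (L ⧸ I)).toRingHom = φ := by
      apply Polynomial.ringHom_ext
      · intro a
        simp only [AlgHom.toRingHom_eq_coe, RingHom.coe_coe, aeval_C]
        rfl
      · simp
    exact congrArg (fun r : (ZMod 2)[X] →+* (L ⧸ I) => r g) this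
  have hint : IsIntegral (ZMod 2) (φ X) := Algebra.IsIntegral.isIntegral _
  set P := minpoly (ZMod 2) (φ X) with hP
  have hPm : P.Monic := minpoly.monic hint
  have hP0 : φ P = 0 := by rw [← haev]; exact minpoly.aeval _ _
  -- additive maps on bounded degree
  let ψ : (m : ℕ) → (Polynomial.degreeLT (ZMod 2) m →+ (L ⧸ I)) := fun m =>
    φ.toAddMonoidHom.comp (Polynomial.degreeLT (ZMod 2) m).subtype.toAddMonoidHom
  have hψ : ∀ m (g : Polynomial.degreeLT (ZMod 2) m), ψ m g = φ (g : (ZMod 2)[X]) := fun m g => rfl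
  have hfin : ∀ m, Finite (Polynomial.degreeLT (ZMod 2) m) := fun m =>
    Finite.of_equiv _ (Polynomial.degreeLTEquiv (ZMod 2) m).toEquiv.symm
  have hinj : Function.Injective (ψ P.natDegree) := by
    rw [injective_iff_map_eq_zero]
    intro g hg
    rw [hψ, ← haev] at hg
    have hd := minpoly.dvd (ZMod 2) (φ X) hg
    have hdeg : (g : (ZMod 2)[X]).degree < P.degree := by
      have := Polynomial.mem_degreeLT.1 g.2
      rwa [Polynomial.degree_eq_natDegree hPm.ne_zero]
    have := Polynomial.eq_zero_of_dvd_of_degree_lt hd hdeg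
    exact Subtype.ext this
  have hsur : Function.Surjective (ψ P.natDegree) := by
    intro y
    obtain ⟨g, rfl⟩ := hφs y
    refine ⟨⟨g %ₘ P, ?_⟩, ?_⟩
    · rw [Polynomial.mem_degreeLT, ← Polynomial.degree_eq_natDegree hPm.ne_zero]
      exact Polynomial.degree_modByMonic_lt g hPm
    · rw [hψ]
      have := Polynomial.modByMonic_add_div g P
      show φ (g %ₘ P) = φ g
      conv_rhs => rw [← this]
      rw [map_add, map_mul, hP0, zero_mul, add_zero]
  have hdf : P.natDegree = f := by
    have h3 : Nat.card (Polynomial.degreeLT (ZMod 2) P.natDegree) = Nat.card (L ⧸ I) :=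
      Nat.card_congr (Equiv.ofBijective _ ⟨hinj, hsur⟩)
    rw [card_deg, hcard] at h3
    exact Nat.pow_right_injective (le_refl 2) h3
  rw [hdf] at hinj hsur
  haveI := hfin n
  refine (fib_le (ψ n) (fun g => ev (g : (ZMod 2)[X]) - s ∈ I) ?_).trans ?_
  · intro a b ha hb
    rw [hψ]
    show φ ((a - b : Polynomial.degreeLT (ZMod 2) n) : (ZMod 2)[X]) = 0
    show Ideal.Quotient.mk I (ev ((a : (ZMod 2)[X]) - (b : (ZMod 2)[X]))) = 0
    rw [Ideal.Quotient.eq_zero_iff_mem, map_sub]
    have := I.sub_mem ha hb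
    simpa using this
  · rcases le_total f n with hfn | hfn
    · have hs2 : Function.Surjective (ψ n) := by
        intro y
        obtain ⟨g, rfl⟩ := hsur y
        refine ⟨⟨g, Polynomial.degreeLT_mono hfn g.2⟩, rfl⟩
      have h4 := (ψ n).ker.card_mul_index
      have h5 : (ψ n).ker.index = 2 ^ f := by
        rw [AddSubgroup.index_ker, ← hcard, AddMonoidHom.range_eq_top.2 hs2]
        exact Nat.card_congr AddSubgroup.topEquiv.toEquiv
      rw [h5, card_deg] at h4
      have h6 : 2 ^ n = 2 ^ (n - f) * 2 ^ f := by rw [← pow_add, Nat.sub_add_cancel hfn]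
      rw [h6] at h4
      exact (Nat.eq_of_mul_eq_mul_right (by positivity) h4).le
    · have hi2 : Function.Injective (ψ n) := by
        intro a b hab
        have h7 : ψ f ⟨a, Polynomial.degreeLT_mono hfn a.2⟩ = ψ f ⟨b, Polynomial.degreeLT_mono hfn b.2⟩ :=
          hab
        have h8 := hinj h7
        exact Subtype.ext (Subtype.mk.inj h8)
      have h9 : (ψ n).ker = ⊥ := (AddMonoidHom.ker_eq_bot_iff _).2 hi2
      rw [h9, Nat.sub_eq_zero_of_le hfn]
      simp

end Pool.Agent.Helper5.C2
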